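import Pool.Agent.Lib.MP_305fdd_al.Su.Cup.Main
import Pool.Agent.Lib.MP_305fdd_al.Su.AA.Pk

/-!
# MP_305fdd_al, surface groups, block CUP: the form for pairs of commuting elements
-/

set_option autoImplicit false

namespace Pool.Agent.SuCup

open Matrix Pool.Agent.Su Pool.Agent.SuSM Pool.Agent.Lib.MP_305fdd_al Pool.Agent.SuCO
  Pool.Agent.FrN Pool.Agent.SuPts

/-- two commuting elements have linearly dependent classes: one of the three non-trivial linear
relations holds for all characters -/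
theorem cup_form {g : ℕ} {Λ : Type} [Group Λ] (Φ : NatBij Λ (SurfaceGroup g)) [Group.FG Λ] {F : Type}
    [Field F] [Algebra (ZMod 2) F] {ρ : Λ →* SpecialLinearGroup (Fin 2) F} {Γ : Type} [Group Γ]
    (hg : 2 ≤ g) (h : Gn 2 ρ) (π : Λ →* Γ) (hπ : Function.Surjective π) (hk : π.ker ≤ ρ.ker) :
    ∀ x y : Γ, x * y = y * x → (∀ χ : Γ →* Multiplicative (ZMod 2), χ x = 1) ∨
      (∀ χ : Γ →* Multiplicative (ZMod 2), χ y = 1) ∨
      ∀ χ : Γ →* Multiplicative (ZMod 2), χ x = χ y := by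
  intro x y hxy
  by_contra hcon
  push Not at hcon
  obtain ⟨⟨a, ha⟩, ⟨b, hb⟩, c, hc⟩ := hcon
  have hd : ∀ c d : M2, c ≠ 1 → d ≠ 1 → c * d = 1 := by decide
  have hd2 : ∀ c d : M2, c ≠ 1 → d = 1 → c * d ≠ 1 := by decide
  have hd3 : ∀ c d : M2, c ≠ 1 → d ≠ 1 → c = d := by decide
  -- the characters with the values `(1, 0)` and `(0, 1)`
  have key : ∃ φ ψ : Γ →* M2, φ x ≠ 1 ∧ φ y = 1 ∧ ψ x = 1 ∧ ψ y ≠ 1 := by
    by_cases h1 : c x = 1
    · have h2 : c y ≠ 1 := fun h2 => hc (h1.trans h2.symm)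
      by_cases h3 : a y = 1
      · exact ⟨a, c, ha, h3, h1, h2⟩
      · refine ⟨a * c, c, ?_, ?_, h1, h2⟩
        · rw [MonoidHom.mul_apply]
          exact hd2 _ _ ha h1
        · rw [MonoidHom.mul_apply]
          exact hd _ _ h3 h2
    · have h2 : c y = 1 := by
        by_contra h2
        exact hc (hd3 _ _ h1 h2)
      by_cases h3 : b x = 1
      · exact ⟨c, b, h1, h2, h3, hb⟩
      · refine ⟨c, b * c, h1, h2, ?_, ?_⟩
        · rw [MonoidHom.mul_apply]
          exact hd _ _ h3 h1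
        · rw [MonoidHom.mul_apply]
          exact hd2 _ _ hb h2
  obtain ⟨φ, ψ, h1, h2, h3, h4⟩ := key
  exact cup_gam Φ hg h π hπ hk hxy φ ψ h1 h2 h3 h4

/-- the form for the package `Pk` -/
theorem cup_pk {g : ℕ} {Λ Γ F : Type} [Group Λ] [Group Γ] [Field F] [Algebra (ZMod 2) F]
    {π : Λ →* Γ} {ρ : Γ →* SpecialLinearGroup (Fin 2) F} (P : SuAA.Pk g π ρ) :
    ∀ x y : Γ, x * y = y * x → (∀ χ : Γ →* Multiplicative (ZMod 2), χ x = 1) ∨
      (∀ χ : Γ →* Multiplicative (ZMod 2), χ y = 1) ∨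
      ∀ χ : Γ →* Multiplicative (ZMod 2), χ x = χ y := by
  obtain ⟨Φ⟩ := P.nb
  have := P.fgL
  exact cup_form Φ P.two P.gn π P.surj fun x hx => by
    rw [MonoidHom.mem_ker] at hx ⊢
    rw [MonoidHom.comp_apply, hx, map_one]

end Pool.Agent.SuCup
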