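import Mathlib
import Pool.Agent.Lib.MP_305fdd_al.Su.Count

/-!
# MP_305fdd_al, surface groups, block CUP: lifts to groups generated by two involutions

Let `G` be a group with two involutions `u, v` and a homomorphism `q` to `F₂ × F₂` which sends them to
the basis.  A homomorphism from the surface group to `F₂ × F₂` lifts to `G` if the cup product of its
components vanishes.
-/

set_option autoImplicit false

namespace Pool.Agent.SuCup

open Pool.Agent.Su

open scoped commutatorElement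

/-- the plane over the field with two elements -/
abbrev V : Type := ZMod 2 × ZMod 2

/-- the determinant of two vectors -/
def dt (x y : V) : ZMod 2 := x.1 * y.2 + x.2 * y.1

section words

variable {G : Type} [Group G] (u v : G)

/-- lifts of the vectors -/
def lf (a : V) : G := if a.1 = 0 then (if a.2 = 0 then 1 else v) else (if a.2 = 0 then u else u * v)

theorem lf00 : lf u v ((0 : ZMod 2), (0 : ZMod 2)) = 1 := rfl

theorem lf01 : lf u v ((0 : ZMod 2), (1 : ZMod 2)) = v := rfl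

theorem lf10 : lf u v ((1 : ZMod 2), (0 : ZMod 2)) = u := rfl

theorem lf11 : lf u v ((1 : ZMod 2), (1 : ZMod 2)) = u * v := rfl

theorem z2 (z : ZMod 2) : z = 0 ∨ z = 1 := by
  revert z
  decide

variable {u v}

theorem inv_u (hu : u * u = 1) : u⁻¹ = u := inv_eq_of_mul_eq_one_left hu

theorem mul_l (hu : u * u = 1) (x : G) : u * (u * x) = x := by
  rw [← mul_assoc, hu, one_mul]

theorem comm_zero (hu : u * u = 1) (hv : v * v = 1) : ∀ a b : V, dt a b = 0 →
    ⁅lf u v a, lf u v b⁆ = 1 := by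
  rintro ⟨a1, a2⟩ ⟨b1, b2⟩ hd
  rcases z2 a1 with rfl | rfl <;> rcases z2 a2 with rfl | rfl <;> rcases z2 b1 with rfl | rfl <;>
    rcases z2 b2 with rfl | rfl <;> first | (exact absurd hd (by decide)) |
    simp [lf00, lf01, lf10, lf11, commutatorElement_def, mul_assoc, inv_u hu, inv_u hv, mul_l hu,
      mul_l hv, hu, hv]

theorem comm_one (hu : u * u = 1) (hv : v * v = 1) : ∀ a b : V, dt a b = 1 →
    ⁅lf u v a, lf u v b⁆ = ⁅u, v⁆ ∨ ⁅lf u v a, lf u v b⁆ = ⁅u, v⁆⁻¹ := by
  rintro ⟨a1, a2⟩ ⟨b1, b2⟩ hd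
  rcases z2 a1 with rfl | rfl <;> rcases z2 a2 with rfl | rfl <;> rcases z2 b1 with rfl | rfl <;>
    rcases z2 b2 with rfl | rfl <;> first | (exact absurd hd (by decide)) |
    simp [lf00, lf01, lf10, lf11, commutatorElement_def, mul_assoc, inv_u hu, inv_u hv, mul_l hu,
      mul_l hv, hu, hv]

theorem conj_K (hu : u * u = 1) (hv : v * v = 1) : u * ⁅u, v⁆ * u⁻¹ = ⁅u, v⁆⁻¹ := by
  simp [commutatorElement_def, mul_assoc, inv_u hu, inv_u hv, mul_l hu]

variable (q : G →* Multiplicative V)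

theorem q_lf (h1 : q u = Multiplicative.ofAdd (1, 0)) (h2 : q v = Multiplicative.ofAdd (0, 1)) :
    ∀ a : V, q (lf u v a) = Multiplicative.ofAdd a := by
  rintro ⟨a1, a2⟩
  rcases z2 a1 with rfl | rfl <;> rcases z2 a2 with rfl | rfl
  · rw [lf00, map_one]
    rfl
  · rw [lf01, h2]
  · rw [lf10, h1]
  · rw [lf11, map_mul, h1, h2]
    rfl

theorem q_conj (c x : G) : q (c * x * c⁻¹) = q x := by
  rw [map_mul, map_mul, map_inv, mul_right_comm, mul_inv_cancel, one_mul]

theorem exists_pair (hu : u * u = 1) (hv : v * v = 1) (h1 : q u = Multiplicative.ofAdd (1, 0))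
    (h2 : q v = Multiplicative.ofAdd (0, 1)) (a b : V) (hd : dt a b = 1) (K : G)
    (hK : K = ⁅u, v⁆ ∨ K = ⁅u, v⁆⁻¹) : ∃ A B : G, q A = Multiplicative.ofAdd a ∧
      q B = Multiplicative.ofAdd b ∧ ⁅A, B⁆ = K := by
  by_cases hc : ⁅lf u v a, lf u v b⁆ = K
  · exact ⟨_, _, q_lf q h1 h2 a, q_lf q h1 h2 b, hc⟩
  · refine ⟨u * lf u v a * u⁻¹, u * lf u v b * u⁻¹, ?_, ?_, ?_⟩
    · rw [q_conj, q_lf q h1 h2]
    · rw [q_conj, q_lf q h1 h2]
    · have h3 : ⁅u * lf u v a * u⁻¹, u * lf u v b * u⁻¹⁆ = u * ⁅lf u v a, lf u v b⁆ * u⁻¹ := by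
        simp only [commutatorElement_def]
        group
      rw [h3]
      rcases comm_one hu hv a b hd with h4 | h4 <;> rcases hK with h5 | h5
      · exact absurd (h4.trans h5.symm) hc
      · rw [h4, conj_K hu hv, h5]
      · rw [h4, h5]
        have h6 := congrArg (·⁻¹) (conj_K hu hv)
        simp only [mul_inv_rev, inv_inv] at h6
        rw [mul_assoc]
        exact h6
      · exact absurd (h4.trans h5.symm) hc

theorem exists_fam (hu : u * u = 1) (hv : v * v = 1) (h1 : q u = Multiplicative.ofAdd (1, 0))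
    (h2 : q v = Multiplicative.ofAdd (0, 1)) : ∀ (g : ℕ) (x y : Fin g → V), ∃ A B : Fin g → G,
      (∀ i, q (A i) = Multiplicative.ofAdd (x i)) ∧ (∀ i, q (B i) = Multiplicative.ofAdd (y i)) ∧
      (List.ofFn fun i => ⁅A i, B i⁆).prod = if ∑ i, dt (x i) (y i) = 0 then 1 else ⁅u, v⁆ := by
  intro g
  induction g with
  | zero =>
    intro x y
    exact ⟨fun i => i.elim0, fun i => i.elim0, fun i => i.elim0, fun i => i.elim0, by simp⟩
  | succ g ih =>
    intro x y
    obtain ⟨A, B, hA, hB, hP⟩ := ih (fun i => x i.succ) (fun i => y i.succ)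
    have key : ∃ A0 B0 : G, q A0 = Multiplicative.ofAdd (x 0) ∧ q B0 = Multiplicative.ofAdd (y 0) ∧
        ⁅A0, B0⁆ * (if ∑ i : Fin g, dt (x i.succ) (y i.succ) = 0 then 1 else ⁅u, v⁆) =
          if dt (x 0) (y 0) + ∑ i : Fin g, dt (x i.succ) (y i.succ) = 0 then 1 else ⁅u, v⁆ := by
      have h01 : ∀ z : ZMod 2, z = 0 ∨ z = 1 := by decide
      rcases h01 (dt (x 0) (y 0)) with h3 | h3
      · refine ⟨_, _, q_lf q h1 h2 (x 0), q_lf q h1 h2 (y 0), ?_⟩
        rw [comm_zero hu hv _ _ h3, one_mul, h3, zero_add]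
      · rcases h01 (∑ i : Fin g, dt (x i.succ) (y i.succ)) with h4 | h4
        · obtain ⟨A0, B0, hA0, hB0, hc⟩ := exists_pair q hu hv h1 h2 (x 0) (y 0) h3 ⁅u, v⁆ (Or.inl rfl)
          refine ⟨A0, B0, hA0, hB0, ?_⟩
          rw [hc, h4, if_pos rfl, mul_one, h3, add_zero, if_neg (by decide)]
        · obtain ⟨A0, B0, hA0, hB0, hc⟩ := exists_pair q hu hv h1 h2 (x 0) (y 0) h3 ⁅u, v⁆⁻¹
            (Or.inr rfl)
          refine ⟨A0, B0, hA0, hB0, ?_⟩
          rw [hc, h4, h3, if_neg (by decide), if_pos (by decide), inv_mul_cancel]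
    obtain ⟨A0, B0, hA0, hB0, hc⟩ := key
    refine ⟨Fin.cons A0 A, Fin.cons B0 B, ?_, ?_, ?_⟩
    · intro i
      refine Fin.cases ?_ (fun j => ?_) i
      · exact hA0
      · exact hA j
    · intro i
      refine Fin.cases ?_ (fun j => ?_) i
      · exact hB0
      · exact hB j
    · rw [List.ofFn_succ, List.prod_cons, Fin.sum_univ_succ, ← hc, ← hP]
      rfl

/-- the generators of the surface group -/
def ga (g : ℕ) (i : Fin g) : SurfaceGroup g := PresentedGroup.of (rels := {surfRel g}) (Sum.inl i)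

/-- the generators of the surface group -/
def gb (g : ℕ) (i : Fin g) : SurfaceGroup g := PresentedGroup.of (rels := {surfRel g}) (Sum.inr i)

theorem surf_ext {g : ℕ} {H : Type} [Group H] {f f' : SurfaceGroup g →* H}
    (ha : ∀ i, f (ga g i) = f' (ga g i)) (hb : ∀ i, f (gb g i) = f' (gb g i)) : f = f' := by
  apply (homEquiv g H).injective
  apply Subtype.ext
  funext i
  exact Prod.ext (ha i) (hb i)

theorem exists_surf {g : ℕ} {H : Type} [Group H] (A B : Fin g → H)
    (h : (List.ofFn fun i => ⁅A i, B i⁆).prod = 1) :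
    ∃ f : SurfaceGroup g →* H, (∀ i, f (ga g i) = A i) ∧ ∀ i, f (gb g i) = B i := by
  let f := (homEquiv g H).symm ⟨fun i => (A i, B i), h⟩
  have h1 : homEquiv g H f = ⟨fun i => (A i, B i), h⟩ := Equiv.apply_symm_apply _ _
  refine ⟨f, fun i => ?_, fun i => ?_⟩
  · exact congrArg Prod.fst (congrFun (congrArg Subtype.val h1) i)
  · exact congrArg Prod.snd (congrFun (congrArg Subtype.val h1) i)

/-- the lift -/
theorem exists_lift (hu : u * u = 1) (hv : v * v = 1) (h1 : q u = Multiplicative.ofAdd (1, 0))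
    (h2 : q v = Multiplicative.ofAdd (0, 1)) {g : ℕ} (x y : Fin g → V)
    (h : ∑ i, dt (x i) (y i) = 0) : ∃ f : SurfaceGroup g →* G,
      (∀ i, q (f (ga g i)) = Multiplicative.ofAdd (x i)) ∧
      ∀ i, q (f (gb g i)) = Multiplicative.ofAdd (y i) := by
  obtain ⟨A, B, hA, hB, hP⟩ := exists_fam q hu hv h1 h2 g x y
  rw [if_pos h] at hP
  obtain ⟨f, hfa, hfb⟩ := exists_surf A B hP
  exact ⟨f, fun i => by rw [hfa, hA], fun i => by rw [hfb, hB]⟩

end words

end Pool.Agent.SuCup
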