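import Mathlib
import Pool.Agent.Lib.MP_305fdd_al.Su.Cup.Lift

/-!
# MP_305fdd_al, surface groups, block CUP: the dihedral group of order eight in `SL₂`
-/

set_option autoImplicit false

namespace Pool.Agent.SuCup

open Matrix

/-- the dihedral group of order eight as a Heisenberg group -/
@[ext] structure H8 where
  /-- first coordinate -/
  y : ZMod 2
  /-- second coordinate -/
  z : ZMod 2
  /-- central coordinate -/
  a : ZMod 2
deriving DecidableEq, Fintype

instance : Group H8 where
  mul p q := ⟨p.y + q.y, p.z + q.z, p.a + q.a + p.y * q.z⟩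
  one := ⟨0, 0, 0⟩
  inv p := ⟨p.y, p.z, p.a + p.y * p.z⟩
  mul_assoc := by decide
  one_mul := by decide
  mul_one := by decide
  inv_mul_cancel := by decide

/-- the projection to the plane -/
def pr : H8 →* Multiplicative V where
  toFun p := Multiplicative.ofAdd (p.y, p.z)
  map_one' := rfl
  map_mul' _ _ := rfl

/-- the generators -/
def uH : H8 := ⟨1, 0, 0⟩

/-- the generators -/
def vH : H8 := ⟨0, 1, 0⟩

theorem uH_sq : uH * uH = 1 := by decide

theorem vH_sq : vH * vH = 1 := by decide

theorem not_comm : ∀ p q : H8, p.y = 1 → p.z = 0 → q.y = 0 → q.z = 1 → p * q ≠ q * p := by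
  decide

section emb

variable {R : Type} [CommRing R] [Algebra (ZMod 2) R] (B C : R)

theorem two_zero : (2 : R) = 0 := by
  have h : algebraMap (ZMod 2) R 2 = 0 := by
    rw [show (2 : ZMod 2) = 0 from by decide, map_zero]
  rwa [map_ofNat] at h

/-- the two involutions -/
def uR : SpecialLinearGroup (Fin 2) R := ⟨!![1, B; 0, 1], by simp [Matrix.det_fin_two_of]⟩

/-- the two involutions -/
def vR : SpecialLinearGroup (Fin 2) R := ⟨!![1, 0; C, 1], by simp [Matrix.det_fin_two_of]⟩

theorem uR_sq : uR B * uR B = 1 := by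
  apply Subtype.ext
  change !![1, B; 0, 1] * !![1, B; 0, 1] = (1 : Matrix (Fin 2) (Fin 2) R)
  rw [Matrix.mul_fin_two, Matrix.one_fin_two]
  have h : B + B = 0 := by rw [← two_mul, two_zero, zero_mul]
  simp [h]

theorem vR_sq : vR C * vR C = 1 := by
  apply Subtype.ext
  change !![1, 0; C, 1] * !![1, 0; C, 1] = (1 : Matrix (Fin 2) (Fin 2) R)
  rw [Matrix.mul_fin_two, Matrix.one_fin_two]
  have h : C + C = 0 := by rw [← two_mul, two_zero, zero_mul]
  simp [h]

/-- the matrix of an element -/
def mH (p : H8) : Matrix (Fin 2) (Fin 2) R :=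
  !![1 + algebraMap (ZMod 2) R p.a * (B * C), algebraMap (ZMod 2) R p.y * B;
    algebraMap (ZMod 2) R p.z * C,
    1 + (algebraMap (ZMod 2) R p.a + algebraMap (ZMod 2) R p.y * algebraMap (ZMod 2) R p.z) * (B * C)]

variable {B C}

theorem mH_mul (hB : B * B = 0) (hC : C * C = 0) (p q : H8) :
    mH B C (p * q) = mH B C p * mH B C q := by
  have h2 : (2 : R) = 0 := two_zero
  have e1 : (p * q).a = p.a + q.a + p.y * q.z := rfl
  have e2 : (p * q).y = p.y + q.y := rfl
  have e3 : (p * q).z = p.z + q.z := rfl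
  unfold mH
  rw [Matrix.mul_fin_two, e1, e2, e3]
  simp only [map_add, map_mul]
  generalize algebraMap (ZMod 2) R p.a = a
  generalize algebraMap (ZMod 2) R p.y = y
  generalize algebraMap (ZMod 2) R p.z = z
  generalize algebraMap (ZMod 2) R q.a = a'
  generalize algebraMap (ZMod 2) R q.y = y'
  generalize algebraMap (ZMod 2) R q.z = z'
  congr 1
  ext i j
  fin_cases i <;> fin_cases j
  · simp only [Matrix.cons_val', Matrix.cons_val_zero, Fin.zero_eta]
    linear_combination (-a * a' * C * C) * hB
  · simp only [Matrix.cons_val', Matrix.cons_val_zero, Matrix.cons_val_one,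
      Fin.zero_eta, Fin.mk_one]
    linear_combination (-a * y' * C - y * (a' + y' * z') * C) * hB
  · simp only [Matrix.cons_val', Matrix.cons_val_zero, Matrix.cons_val_one,
      Fin.zero_eta, Fin.mk_one]
    linear_combination (-z * a' * B - (a + y * z) * z' * B) * hC
  · simp only [Matrix.cons_val', Matrix.cons_val_zero, Matrix.cons_val_one,
      Fin.mk_one]
    linear_combination (-(a + y * z) * (a' + y' * z') * C * C) * hB + (y * z' * B * C) * h2

theorem mH_one : mH B C 1 = (1 : Matrix (Fin 2) (Fin 2) R) := by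
  unfold mH
  rw [show (1 : H8).a = 0 from rfl, show (1 : H8).y = 0 from rfl, show (1 : H8).z = 0 from rfl,
    Matrix.one_fin_two]
  simp

theorem mH_det (hB : B * B = 0) (p : H8) : (mH B C p).det = 1 := by
  have h2 : (2 : R) = 0 := two_zero
  unfold mH
  rw [Matrix.det_fin_two_of]
  generalize algebraMap (ZMod 2) R p.a = a
  generalize algebraMap (ZMod 2) R p.y = y
  generalize algebraMap (ZMod 2) R p.z = z
  linear_combination (a * (a + y * z) * C * C) * hB + (a * B * C) * h2

/-- the embedding of the dihedral group -/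
def io (hB : B * B = 0) (hC : C * C = 0) : H8 →* SpecialLinearGroup (Fin 2) R where
  toFun p := ⟨mH B C p, mH_det hB p⟩
  map_one' := Subtype.ext mH_one
  map_mul' p q := Subtype.ext (mH_mul hB hC p q)

theorem io_u (hB : B * B = 0) (hC : C * C = 0) : io hB hC uH = uR B := by
  apply Subtype.ext
  change mH B C uH = !![1, B; 0, 1]
  unfold mH uH
  simp

theorem io_v (hB : B * B = 0) (hC : C * C = 0) : io hB hC vH = vR C := by
  apply Subtype.ext
  change mH B C vH = !![1, 0; C, 1]
  unfold mH vH
  simp

theorem io_inj (hB : B * B = 0) (hC : C * C = 0) (h : B * C ≠ 0) :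
    Function.Injective (io hB hC) := by
  rw [injective_iff_map_eq_one]
  intro p hp
  have hp' : mH B C p = 1 := congrArg Subtype.val hp
  have hB0 : B ≠ 0 := fun h0 => h (by rw [h0, zero_mul])
  have hC0 : C ≠ 0 := fun h0 => h (by rw [h0, mul_zero])
  have e1 : algebraMap (ZMod 2) R p.y * B = 0 := by
    have := congrFun (congrFun hp' 0) 1
    simpa [mH] using this
  have e2 : algebraMap (ZMod 2) R p.z * C = 0 := by
    have := congrFun (congrFun hp' 1) 0
    simpa [mH] using this
  have e3 : algebraMap (ZMod 2) R p.a * (B * C) = 0 := by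
    have := congrFun (congrFun hp' 0) 0
    simpa [mH] using this
  have key : ∀ (c : ZMod 2) (r : R), r ≠ 0 → algebraMap (ZMod 2) R c * r = 0 → c = 0 := by
    intro c r hr hcr
    rcases z2 c with rfl | rfl
    · rfl
    · rw [map_one, one_mul] at hcr
      exact absurd hcr hr
  exact H8.ext (key _ _ hB0 e1) (key _ _ hC0 e2) (key _ _ h e3)

end emb

/-- the ring `F₂[B, C] / (B², C²)` -/
abbrev R00 : Type := DualNumber (DualNumber (ZMod 2))

/-- the first variable -/
def B00 : R00 := TrivSqZeroExt.inl DualNumber.eps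

/-- the second variable -/
def C00 : R00 := DualNumber.eps

theorem B00_sq : B00 * B00 = 0 := by
  unfold B00
  rw [← TrivSqZeroExt.inl_mul, DualNumber.eps_mul_eps, TrivSqZeroExt.inl_zero]

theorem C00_sq : C00 * C00 = 0 := DualNumber.eps_mul_eps

theorem BC00_ne : B00 * C00 ≠ 0 := by
  intro h
  have h1 : TrivSqZeroExt.snd (B00 * C00) = (DualNumber.eps : DualNumber (ZMod 2)) := by
    rw [TrivSqZeroExt.snd_mul, B00, C00, TrivSqZeroExt.fst_inl, TrivSqZeroExt.snd_inl,
      DualNumber.snd_eps, smul_zero, add_zero, smul_eq_mul, mul_one]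
  rw [h, TrivSqZeroExt.snd_zero] at h1
  have h2 := congrArg TrivSqZeroExt.snd h1
  rw [DualNumber.snd_eps, TrivSqZeroExt.snd_zero] at h2
  exact absurd h2 (by decide)

/-- the ring `F₂[B, C] / (B², C²)` -/
def R0 : Type := R00

noncomputable instance : CommRing R0 := inferInstanceAs (CommRing R00)

noncomputable instance : Algebra (ZMod 2) R0 :=
  RingHom.toAlgebra (algebraMap (ZMod 2) R00 : ZMod 2 →+* R00)

instance : Finite R0 :=
  inferInstanceAs (Finite ((ZMod 2 × ZMod 2) × (ZMod 2 × ZMod 2)))

/-- the first variable -/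
def B0 : R0 := B00

/-- the second variable -/
def C0 : R0 := C00

theorem B0_sq : B0 * B0 = 0 := B00_sq

theorem C0_sq : C0 * C0 = 0 := C00_sq

theorem BC_ne : B0 * C0 ≠ 0 := BC00_ne

/-- the embedding in `SL₂` of the finite ring -/
noncomputable def ioR : H8 →* SpecialLinearGroup (Fin 2) R0 := io (R := R0) (B := B0) (C := C0) B0_sq C0_sq

theorem ioR_u : ioR uH = uR B0 := io_u (R := R0) (B := B0) (C := C0) B0_sq C0_sq

theorem ioR_v : ioR vH = vR C0 := io_v (R := R0) (B := B0) (C := C0) B0_sq C0_sq

theorem ioR_inj : Function.Injective ioR :=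
  io_inj (R := R0) (B := B0) (C := C0) B0_sq C0_sq BC_ne

/-- the polynomial ring in two variables -/
abbrev RP : Type := MvPolynomial (Fin 2) (ZMod 2)

/-- the specialisation -/
noncomputable def sp0 : RP →ₐ[ZMod 2] R0 := MvPolynomial.aeval ![B0, C0]

theorem map_u : SpecialLinearGroup.map (sp0 : RP →+* R0) (uR (MvPolynomial.X 0)) = uR B0 := by
  apply Subtype.ext
  refine Matrix.ext fun i j => ?_
  fin_cases i <;> fin_cases j <;> simp [uR, sp0]

theorem map_v : SpecialLinearGroup.map (sp0 : RP →+* R0) (vR (MvPolynomial.X 1)) = vR C0 := by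
  apply Subtype.ext
  refine Matrix.ext fun i j => ?_
  fin_cases i <;> fin_cases j <;> simp [vR, sp0]

end Pool.Agent.SuCup
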