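import Pool.Agent.Lib.MP_305fdd_al.Su.Cup.Hei
import Pool.Agent.Lib.MP_305fdd_al.Su.Pts.Pack

/-!
# MP_305fdd_al, surface groups, block CUP: commuting elements have dependent classes

`Λ` has the same finite quotients as the surface group of genus `g ≥ 2`, and `ρ` is the generic
representation over rings of characteristic two.  If `ρ m₁` and `ρ m₂` commute, then the classes of
`m₁` and `m₂` in the first homology group modulo two are linearly dependent.
-/

set_option autoImplicit false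

namespace Pool.Agent.SuCup

open scoped commutatorElement

open Matrix Pool.Agent.Su Pool.Agent.SuSM Pool.Agent.Lib.MP_305fdd_al Pool.Agent.SuCO
  Pool.Agent.FrN Pool.Agent.SuPts

/-- the two realisations of the dihedral group -/
noncomputable def EG : Subgroup (SpecialLinearGroup (Fin 2) RP × H8) :=
  MonoidHom.eqLocus ((SpecialLinearGroup.map (sp0 : RP →+* R0)).comp (MonoidHom.fst _ _))
    (ioR.comp (MonoidHom.snd _ _))

/-- the first generator -/
noncomputable def uE : EG := ⟨(uR (MvPolynomial.X 0), uH), by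
  change SpecialLinearGroup.map (sp0 : RP →+* R0) (uR (MvPolynomial.X 0)) = ioR uH
  rw [map_u, ioR_u]⟩

/-- the second generator -/
noncomputable def vE : EG := ⟨(vR (MvPolynomial.X 1), vH), by
  change SpecialLinearGroup.map (sp0 : RP →+* R0) (vR (MvPolynomial.X 1)) = ioR vH
  rw [map_v, ioR_v]⟩

/-- the identity family -/
def nbRefl (G : Type) [Group G] : NatBij G G where
  toFun _ _ _ θ := θ
  invFun _ _ _ θ := θ
  left_inv _ _ _ _ := rfl
  right_inv _ _ _ _ := rfl
  nat _ _ := rfl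

/-- the lift of two characters with vanishing cup product; the resulting representation over the
finite ring kills the torsion -/
theorem exists_surf_lift {g : ℕ} (hg : 2 ≤ g) (x y : Fin g → V) (h : ∑ i, dt (x i) (y i) = 0) :
    ∃ f : SurfaceGroup g →* H8, (∀ i, pr (f (ga g i)) = Multiplicative.ofAdd (x i)) ∧
      (∀ i, pr (f (gb g i)) = Multiplicative.ofAdd (y i)) ∧
      ∀ s ∈ ZZ 2 (SurfaceGroup g), SR.lift (p := 2) (ioR.comp f) s = 0 := by
  have hu : uE * uE = 1 := Subtype.ext (Prod.ext (uR_sq _) uH_sq)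
  have hv : vE * vE = 1 := Subtype.ext (Prod.ext (vR_sq _) vH_sq)
  let q : EG →* Multiplicative V := (pr.comp (MonoidHom.snd _ _)).comp EG.subtype
  obtain ⟨f, hfa, hfb⟩ := exists_lift q hu hv rfl rfl x y h
  refine ⟨(MonoidHom.snd _ _).comp (EG.subtype.comp f), hfa, hfb, ?_⟩
  intro s hs
  have := fg_surf g
  let r : SurfaceGroup g →* SpecialLinearGroup (Fin 2) RP :=
    (MonoidHom.fst _ _).comp (EG.subtype.comp f)
  have h1 := pts_red hg (nbRefl (SurfaceGroup g)) RP r s hs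
  have h2 : ioR.comp ((MonoidHom.snd _ _).comp (EG.subtype.comp f)) =
      (SpecialLinearGroup.map (sp0 : RP →+* R0)).comp r := by
    ext1 a
    exact (f a).2.symm
  rw [h2]
  have h3 := SR.lift_map sp0 r
  rw [← h3, AlgHom.comp_apply, h1, map_zero]

variable {g : ℕ} {Λ : Type} [Group Λ]

/-- the group with two elements -/
abbrev M2 : Type := Multiplicative (ZMod 2)

/-- the pair of two characters -/
def pair (φ ψ : Λ →* M2) : Λ →* Multiplicative V where
  toFun x := Multiplicative.ofAdd (Multiplicative.toAdd (φ x), Multiplicative.toAdd (ψ x))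
  map_one' := by
    rw [map_one φ, map_one ψ]
    rfl
  map_mul' x y := by
    rw [map_mul φ, map_mul ψ]
    rfl

/-- the first component -/
def p1 : Multiplicative V →* M2 where
  toFun a := Multiplicative.ofAdd (Multiplicative.toAdd a).1
  map_one' := rfl
  map_mul' _ _ := rfl

/-- the second component -/
def p2 : Multiplicative V →* M2 where
  toFun a := Multiplicative.ofAdd (Multiplicative.toAdd a).2
  map_one' := rfl
  map_mul' _ _ := rfl

/-- the sum of the components -/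
def pm : Multiplicative V →* M2 where
  toFun a := Multiplicative.ofAdd ((Multiplicative.toAdd a).1 + (Multiplicative.toAdd a).2)
  map_one' := rfl
  map_mul' a b := by
    change (_ : ZMod 2) = _
    exact add_add_add_comm _ _ _ _

variable (Φ : NatBij Λ (SurfaceGroup g))

theorem toFun_pair (φ ψ : Λ →* M2) :
    Φ.toFun _ (pair φ ψ) = pair (Φ.toFun _ φ) (Φ.toFun _ ψ) := by
  have h1 := Φ.nat p1 (pair φ ψ)
  have h2 := Φ.nat p2 (pair φ ψ)
  rw [show p1.comp (pair φ ψ) = φ from rfl] at h1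
  rw [show p2.comp (pair φ ψ) = ψ from rfl] at h2
  rw [h1, h2]
  rfl

theorem toFun_mul (φ ψ : Λ →* M2) : Φ.toFun _ (φ * ψ) = Φ.toFun _ φ * Φ.toFun _ ψ := by
  have h1 := Φ.nat pm (pair φ ψ)
  rw [toFun_pair] at h1
  exact h1

/-- the cup product -/
def om (φ ψ : Λ →* M2) : ZMod 2 :=
  ∑ i, (Multiplicative.toAdd (Φ.toFun _ φ (ga g i)) * Multiplicative.toAdd (Φ.toFun _ ψ (gb g i)) +
    Multiplicative.toAdd (Φ.toFun _ ψ (ga g i)) * Multiplicative.toAdd (Φ.toFun _ φ (gb g i)))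

theorem om_comm (φ ψ : Λ →* M2) : om Φ φ ψ = om Φ ψ φ := by
  unfold om
  refine Finset.sum_congr rfl fun i _ => ?_
  ring

theorem om_mul (φ φ' ψ : Λ →* M2) : om Φ (φ * φ') ψ = om Φ φ ψ + om Φ φ' ψ := by
  unfold om
  rw [toFun_mul, ← Finset.sum_add_distrib]
  refine Finset.sum_congr rfl fun i _ => ?_
  rw [MonoidHom.mul_apply, MonoidHom.mul_apply, toAdd_mul, toAdd_mul]
  ring

theorem om_mul' (φ ψ ψ' : Λ →* M2) : om Φ φ (ψ * ψ') = om Φ φ ψ + om Φ φ ψ' := by
  rw [om_comm, om_mul, om_comm Φ ψ, om_comm Φ ψ']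

/-- the cup product is non-degenerate -/
theorem exists_om {n : Λ →* M2} (hn : n ≠ 1) : ∃ χ : Λ →* M2, om Φ n χ = 1 := by
  classical
  by_contra hcon
  push Not at hcon
  have h0 : ∀ χ : Λ →* M2, om Φ n χ = 0 := fun χ => (z2 _).resolve_right (hcon χ)
  apply hn
  apply Φ.injective
  rw [Φ.one]
  have hK : ∀ A B : Fin g → M2, (List.ofFn fun i => ⁅A i, B i⁆).prod = 1 := by
    intro A B
    have h : (fun i => ⁅A i, B i⁆) = fun _ : Fin g => (1 : M2) := by
      funext i
      exact commutatorElement_eq_one_iff_mul_comm.2 (mul_comm _ _)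
    rw [h, List.ofFn_const, List.prod_replicate, one_pow]
  refine surf_ext ?_ ?_
  · intro j
    obtain ⟨f, hfa, hfb⟩ := exists_surf (fun _ => 1)
      (fun i => if i = j then Multiplicative.ofAdd (1 : ZMod 2) else 1) (hK _ _)
    have h1 := h0 (Φ.invFun _ f)
    unfold om at h1
    rw [Φ.right_inv] at h1
    simp only [hfa, hfb, toAdd_one, zero_mul, add_zero] at h1
    rw [Finset.sum_eq_single j] at h1
    · rw [if_pos rfl, toAdd_ofAdd, mul_one] at h1
      exact h1
    · intro i _ hi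
      rw [if_neg hi, toAdd_one, mul_zero]
    · intro hj
      exact absurd (Finset.mem_univ j) hj
  · intro j
    obtain ⟨f, hfa, hfb⟩ := exists_surf
      (fun i => if i = j then Multiplicative.ofAdd (1 : ZMod 2) else 1) (fun _ => 1) (hK _ _)
    have h1 := h0 (Φ.invFun _ f)
    unfold om at h1
    rw [Φ.right_inv] at h1
    simp only [hfa, hfb, toAdd_one, mul_zero, zero_add] at h1
    rw [Finset.sum_eq_single j] at h1
    · rw [if_pos rfl, toAdd_ofAdd, one_mul] at h1
      exact h1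
    · intro i _ hi
      rw [if_neg hi, toAdd_one, zero_mul]
    · intro hj
      exact absurd (Finset.mem_univ j) hj

include Φ

/-- there is a non-trivial character which kills two given elements -/
theorem exists_kill (hg : 2 ≤ g) (m1 m2 : Λ) : ∃ n : Λ →* M2, n ≠ 1 ∧ n m1 = 1 ∧ n m2 = 1 := by
  have hM2 : Nat.card M2 = 2 := by
    change Nat.card (ZMod 2) = 2
    exact Nat.card_zmod 2
  have hcard : Nat.card (Λ →* M2) = 2 ^ (2 * g) := by
    rw [Nat.card_congr (Φ.equiv M2), card_hom_comm, hM2]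
  have hfin : Finite (Λ →* M2) := Nat.finite_of_card_ne_zero (by rw [hcard]; positivity)
  let e : (Λ →* M2) →* M2 × M2 := (MonoidHom.eval m1).prod (MonoidHom.eval m2)
  by_contra hcon
  push Not at hcon
  have he : Function.Injective e := by
    rw [injective_iff_map_eq_one]
    intro n hn
    by_contra hne
    exact hcon n hne (congrArg Prod.fst hn) (congrArg Prod.snd hn)
  have h1 := Nat.card_le_card_of_injective e he
  rw [hcard, Nat.card_prod, hM2] at h1
  have h2 : 2 ^ 4 ≤ 2 ^ (2 * g) := Nat.pow_le_pow_right (by norm_num) (by omega)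
  omega

/-- two characters can be changed by characters which kill two given elements such that the cup
product vanishes -/
theorem exists_om_zero (hg : 2 ≤ g) {m1 m2 : Λ} (φ ψ : Λ →* M2) (h1 : φ m1 ≠ 1) (h2 : φ m2 = 1)
    (h3 : ψ m1 = 1) (h4 : ψ m2 ≠ 1) : ∃ a b : Λ →* M2, a m1 = 1 ∧ a m2 = 1 ∧ b m1 = 1 ∧ b m2 = 1 ∧
      om Φ (φ * a) (ψ * b) = 0 := by
  obtain ⟨n, hn, hn1, hn2⟩ := exists_kill Φ hg m1 m2
  obtain ⟨χ, hχ⟩ := exists_om Φ hn
  have hM : ∀ c : M2, c ≠ 1 → c = Multiplicative.ofAdd (1 : ZMod 2) := by decide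
  have hM' : ∀ c : M2, c = 1 ∨ c = Multiplicative.ofAdd (1 : ZMod 2) := by decide
  rcases z2 (om Φ φ ψ) with h | h
  · exact ⟨1, 1, rfl, rfl, rfl, rfl, by rw [mul_one, mul_one, h]⟩
  rcases z2 (om Φ n ψ) with ha | ha
  swap
  · refine ⟨n, 1, hn1, hn2, rfl, rfl, ?_⟩
    rw [mul_one, om_mul, h, ha]
    decide
  rcases z2 (om Φ φ n) with hb | hb
  swap
  · refine ⟨1, n, rfl, rfl, hn1, hn2, ?_⟩
    rw [mul_one, om_mul', h, hb]
    decide
  -- a character which kills the two elements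
  have key : ∃ χ' : Λ →* M2, χ' m1 = 1 ∧ χ' m2 = 1 ∧ om Φ n χ' = 1 := by
    rcases hM' (χ m1) with e1 | e1 <;> rcases hM' (χ m2) with e2 | e2
    · exact ⟨χ, e1, e2, hχ⟩
    · refine ⟨χ * ψ, ?_, ?_, ?_⟩
      · rw [MonoidHom.mul_apply, e1, h3, mul_one]
      · rw [MonoidHom.mul_apply, e2, hM _ h4]
        decide
      · rw [om_mul', hχ, ha, add_zero]
    · refine ⟨χ * φ, ?_, ?_, ?_⟩
      · rw [MonoidHom.mul_apply, e1, hM _ h1]
        decide
      · rw [MonoidHom.mul_apply, e2, h2, mul_one]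
      · rw [om_mul', hχ, om_comm Φ n φ, hb, add_zero]
    · refine ⟨χ * (φ * ψ), ?_, ?_, ?_⟩
      · rw [MonoidHom.mul_apply, MonoidHom.mul_apply, e1, hM _ h1, h3]
        decide
      · rw [MonoidHom.mul_apply, MonoidHom.mul_apply, e2, hM _ h4, h2]
        decide
      · rw [om_mul', om_mul', hχ, om_comm Φ n φ, hb, ha, add_zero, add_zero]
  obtain ⟨χ', hc1, hc2, hc⟩ := key
  rcases z2 (om Φ φ χ') with hd | hd
  · refine ⟨n, χ', hn1, hn2, hc1, hc2, ?_⟩
    rw [om_mul, om_mul', om_mul', h, ha, hc, hd]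
    decide
  · refine ⟨1, χ', rfl, rfl, hc1, hc2, ?_⟩
    rw [mul_one, om_mul', h, hd]
    decide

variable [Group.FG Λ] {F : Type} [Field F] [Algebra (ZMod 2) F]
  {ρ : Λ →* SpecialLinearGroup (Fin 2) F}

/-- the lift of two characters of `Λ` with vanishing cup product is a specialisation of the generic
representation -/
theorem exists_lam_lift (hg : 2 ≤ g) (h : Gn 2 ρ) (φ ψ : Λ →* M2) (hom : om Φ φ ψ = 0) :
    ∃ f : Λ →* H8, pr.comp f = pair φ ψ ∧ ∀ x y, ρ x = ρ y → f x = f y := by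
  have := fg_surf g
  obtain ⟨f, hfa, hfb, hf⟩ := exists_surf_lift hg
    (fun i => (Multiplicative.toAdd (Φ.toFun _ φ (ga g i)), Multiplicative.toAdd (Φ.toFun _ ψ (ga g i))))
    (fun i => (Multiplicative.toAdd (Φ.toFun _ φ (gb g i)), Multiplicative.toAdd (Φ.toFun _ ψ (gb g i))))
    hom
  have hfin : Finite (SpecialLinearGroup (Fin 2) R0) := SuSM.finite_SL
  refine ⟨Φ.symm.toFun _ f, ?_, ?_⟩
  · apply Φ.injective
    rw [Φ.nat, toFun_pair]
    have h1 : Φ.toFun H8 (Φ.symm.toFun H8 f) = f := Φ.right_inv _ _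
    rw [h1]
    exact surf_ext hfa hfb
  · have h1 := tp_main (p := 2) Φ.symm (ioR.comp f) hf
    rw [Φ.symm.nat] at h1
    obtain ⟨θ, hθ⟩ := (h.sp_iff _).2 h1
    intro x y hxy
    apply ioR_inj
    apply Subtype.ext
    ext1 i j
    have h2 := hθ x i j
    have h3 := hθ y i j
    rw [← MonoidHom.comp_apply, ← MonoidHom.comp_apply, ← h2, ← h3]
    congr 2
    rw [hxy]

/-- commuting elements have linearly dependent classes modulo two -/
theorem cup (hg : 2 ≤ g) (h : Gn 2 ρ) {m1 m2 : Λ} (hc : Commute (ρ m1) (ρ m2))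
    (φ ψ : Λ →* M2) (h1 : φ m1 ≠ 1) (h2 : φ m2 = 1) (h3 : ψ m1 = 1) (h4 : ψ m2 ≠ 1) : False := by
  obtain ⟨a, b, ha1, ha2, hb1, hb2, hab⟩ := exists_om_zero Φ hg φ ψ h1 h2 h3 h4
  obtain ⟨f, hf, hker⟩ := exists_lam_lift Φ hg h (φ * a) (ψ * b) hab
  have hM : ∀ c : M2, c ≠ 1 → Multiplicative.toAdd c = 1 := by decide
  have e : ∀ x, ((f x).y, (f x).z) =
      (Multiplicative.toAdd ((φ * a) x), Multiplicative.toAdd ((ψ * b) x)) := fun x =>
    DFunLike.congr_fun hf x
  have e1 := e m1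
  have e2 := e m2
  simp only [MonoidHom.mul_apply, ha1, ha2, hb1, hb2, mul_one, h2, h3, hM _ h1, hM _ h4,
    toAdd_one, Prod.mk.injEq] at e1 e2
  have h5 : f (m1 * m2) = f (m2 * m1) := hker _ _ (by rw [map_mul, map_mul]; exact hc)
  rw [map_mul, map_mul] at h5
  exact not_comm (f m1) (f m2) e1.1 e1.2 e2.1 e2.2 h5

variable {Γ : Type} [Group Γ]

/-- commuting elements of the image have linearly dependent classes modulo two -/
theorem cup_gam (hg : 2 ≤ g) (h : Gn 2 ρ) (π : Λ →* Γ) (hπ : Function.Surjective π)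
    (hk : π.ker ≤ ρ.ker) {x y : Γ} (hc : Commute x y) (φ ψ : Γ →* M2) (h1 : φ x ≠ 1)
    (h2 : φ y = 1) (h3 : ψ x = 1) (h4 : ψ y ≠ 1) : False := by
  obtain ⟨m1, rfl⟩ := hπ x
  obtain ⟨m2, rfl⟩ := hπ y
  have h5 : ρ (m1 * m2 * (m2 * m1)⁻¹) = 1 := by
    have h6 : m1 * m2 * (m2 * m1)⁻¹ ∈ π.ker := by
      rw [MonoidHom.mem_ker, map_mul, map_inv, map_mul, map_mul, hc.eq, mul_inv_cancel]
    exact hk h6
  have h7 : Commute (ρ m1) (ρ m2) := by
    rw [map_mul, map_inv, map_mul, map_mul, mul_inv_eq_one] at h5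
    exact h5
  exact cup Φ hg h h7 (φ.comp π) (ψ.comp π) h1 h2 h3 h4

/-- the restrictions of the characters of `Γ` to a set of commuting elements closed under
multiplication are `1` and at most one other -/
theorem cup_rank (hg : 2 ≤ g) (h : Gn 2 ρ) (π : Λ →* Γ) (hπ : Function.Surjective π)
    (hk : π.ker ≤ ρ.ker) (M : Subgroup Γ) (hM : ∀ x ∈ M, ∀ y ∈ M, Commute x y) (φ ψ : Γ →* M2) :
    (∀ x ∈ M, φ x = 1) ∨ (∀ x ∈ M, ψ x = 1) ∨ ∀ x ∈ M, φ x = ψ x := by
  by_contra hcon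
  push Not at hcon
  obtain ⟨⟨m1, hm1, h1⟩, ⟨m2, hm2, h2⟩, m3, hm3, h3⟩ := hcon
  have hM2 : ∀ c : M2, c = 1 ∨ c = Multiplicative.ofAdd (1 : ZMod 2) := by decide
  have hd : ∀ c d : M2, c ≠ 1 → d ≠ 1 → c * d = 1 := by decide
  have hd2 : ∀ c d : M2, c ≠ 1 → d = 1 → c * d ≠ 1 := by decide
  by_cases h4 : φ m3 = 1
  · have h5 : ψ m3 ≠ 1 := fun h5 => h3 (h4.trans h5.symm)
    by_cases h6 : ψ m1 = 1
    · exact cup_gam Φ hg h π hπ hk (hM m1 hm1 m3 hm3) φ ψ h1 h4 h6 h5
    · refine cup_gam Φ hg h π hπ hk (hM (m1 * m3) (M.mul_mem hm1 hm3) m3 hm3) φ ψ ?_ h4 ?_ h5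
      · rw [map_mul]
        exact hd2 _ _ h1 h4
      · rw [map_mul]
        exact hd _ _ h6 h5
  · have h5 : ψ m3 = 1 := by
      by_contra h5
      have hd3 : ∀ c d : M2, c ≠ 1 → d ≠ 1 → c = d := by decide
      exact h3 (hd3 _ _ h4 h5)
    by_cases h6 : φ m2 = 1
    · exact cup_gam Φ hg h π hπ hk (hM m3 hm3 m2 hm2) φ ψ h4 h6 h5 h2
    · refine cup_gam Φ hg h π hπ hk (hM m3 hm3 (m2 * m3) (M.mul_mem hm2 hm3)) φ ψ h4 ?_ h5 ?_
      · rw [map_mul]
        exact hd _ _ h6 h4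
      · rw [map_mul]
        exact hd2 _ _ h2 h5

/-- the same as a count -/
theorem cup_card (hg : 2 ≤ g) (h : Gn 2 ρ) (π : Λ →* Γ) (hπ : Function.Surjective π)
    (hk : π.ker ≤ ρ.ker) (M : Subgroup Γ) (hM : ∀ x ∈ M, ∀ y ∈ M, Commute x y) :
    Nat.card (Set.range fun φ : Γ →* M2 => φ.comp M.subtype) ≤ 2 := by
  classical
  by_cases h0 : ∀ φ : Γ →* M2, ∀ x ∈ M, φ x = 1
  · have h1 : (Set.range fun φ : Γ →* M2 => φ.comp M.subtype) ⊆ {1} := by
      rintro _ ⟨φ, rfl⟩
      rw [Set.mem_singleton_iff]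
      ext1 x
      exact h0 φ x x.2
    have h2 := Set.ncard_le_ncard h1 (Set.finite_singleton (1 : M →* M2))
    rw [Set.ncard_singleton] at h2
    rw [Nat.card_coe_set_eq]
    exact h2.trans (by norm_num)
  · push Not at h0
    obtain ⟨φ, x, hx, hφ⟩ := h0
    have h1 : (Set.range fun φ : Γ →* M2 => φ.comp M.subtype) ⊆ {1, φ.comp M.subtype} := by
      rintro _ ⟨ψ, rfl⟩
      rw [Set.mem_insert_iff, Set.mem_singleton_iff]
      rcases cup_rank Φ hg h π hπ hk M hM φ ψ with h2 | h2 | h2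
      · exact absurd (h2 x hx) hφ
      · left
        ext1 y
        exact h2 y y.2
      · right
        ext1 y
        exact (h2 y y.2).symm
    have h2 := Set.ncard_le_ncard h1 (Set.toFinite ({1, φ.comp M.subtype} : Set (M →* M2)))
    rw [Nat.card_coe_set_eq]
    refine h2.trans ((Set.ncard_insert_le _ _).trans ?_)
    rw [Set.ncard_singleton]

end Pool.Agent.SuCup
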